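import Pool.Agent.Helper37.KD.DefsC

/-! KD Part I, piece G1 (MP_019250_an): commutation of shifts -/

namespace KD

namespace I.G1

open Finset

/-- triangle inequality in `ℓ²` -/
theorem l2_tri {G : Type*} [Fintype G] (a b : G → ℝ) :
    √(∑ z, (a z + b z) ^ 2) ≤ √(∑ z, a z ^ 2) + √(∑ z, b z ^ 2) := by
  have h := norm_add_le (WithLp.toLp 2 a : EuclideanSpace ℝ G) (WithLp.toLp 2 b)
  rw [EuclideanSpace.norm_eq, EuclideanSpace.norm_eq, EuclideanSpace.norm_eq] at h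
  simpa only [PiLp.add_apply, Real.norm_eq_abs, sq_abs] using h

/-- `Am τ` is a bijection -/
def amE {d N : ℕ} (τ : ℕ) : GG d N ≃ GG d N where
  toFun := Am τ
  invFun := Ap τ
  left_inv z := by
    refine Prod.ext ?_ rfl
    simp [Am, Ap]
  right_inv z := by
    refine Prod.ext ?_ rfl
    simp [Am, Ap]

theorem sum_Am {d N : ℕ} [NeZero N] (τ : ℕ) (F : GG d N → ℝ) : ∑ z, F (Am τ z) = ∑ z, F z :=
  Fintype.sum_equiv (amE τ) _ _ (fun _ => rfl)

theorem l2_tri4 {G : Type*} [Fintype G] (a b c e : G → ℝ) :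
    √(∑ z, (a z + b z + c z + e z) ^ 2) ≤
      √(∑ z, a z ^ 2) + √(∑ z, b z ^ 2) + √(∑ z, c z ^ 2) + √(∑ z, e z ^ 2) := by
  have h1 := l2_tri (fun z => a z + b z + c z) e
  have h2 := l2_tri (fun z => a z + b z) c
  have h3 := l2_tri a b
  linarith

/-- commutation: x-shifts by `τ w` through v-shifts at two times -/
theorem he_xs_tau {d N : ℕ} [NeZero N] (u u' : GG d N → ℝ) (τ : ℕ) (w : V d N) :
    √(he u (xs (τ • w))) ≤ √(he u (vs w)) + √(he u' (vs w))
      + 2 * √(∑ z, (√(u z) - √(u' (Am τ z))) ^ 2) := by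
  have hA : ∀ z : GG d N, Am τ (z + ((τ • w, w) : GG d N)) = Am τ z + vs w := by
    intro z
    refine Prod.ext ?_ ?_
    · simp only [Am, vs, Prod.fst_add, Prod.snd_add, smul_add, add_zero]
      abel
    · simp only [Am, vs, Prod.snd_add]
  have hS : ∀ z : GG d N, z + xs (τ • w) + vs w = z + ((τ • w, w) : GG d N) := by
    intro z
    refine Prod.ext ?_ ?_
    · simp [xs, vs]
    · simp [xs, vs]
  -- the four differences
  have h := l2_tri4 (fun z : GG d N => √(u (z + xs (τ • w))) - √(u (z + xs (τ • w) + vs w)))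
    (fun z => √(u (z + ((τ • w, w) : GG d N))) - √(u' (Am τ (z + ((τ • w, w) : GG d N)))))
    (fun z => √(u' (Am τ z + vs w)) - √(u' (Am τ z)))
    (fun z => √(u' (Am τ z)) - √(u z))
  have e0 : ∑ z : GG d N, ((√(u (z + xs (τ • w))) - √(u (z + xs (τ • w) + vs w))) +
      (√(u (z + ((τ • w, w) : GG d N))) - √(u' (Am τ (z + ((τ • w, w) : GG d N))))) +
      (√(u' (Am τ z + vs w)) - √(u' (Am τ z))) + (√(u' (Am τ z)) - √(u z))) ^ 2 =
      he u (xs (τ • w)) := by
    unfold he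
    refine Finset.sum_congr rfl fun z _ => ?_
    rw [hS, hA]
    ring
  have e1 : ∑ z : GG d N, (√(u (z + xs (τ • w))) - √(u (z + xs (τ • w) + vs w))) ^ 2 =
      he u (vs w) := by
    rw [sum_shift (fun z : GG d N => (√(u z) - √(u (z + vs w))) ^ 2) (xs (τ • w))]
    unfold he
    refine Finset.sum_congr rfl fun z _ => ?_
    ring
  have e2 : ∑ z : GG d N, (√(u (z + ((τ • w, w) : GG d N))) -
      √(u' (Am τ (z + ((τ • w, w) : GG d N))))) ^ 2 =
      ∑ z, (√(u z) - √(u' (Am τ z))) ^ 2 :=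
    sum_shift (fun z : GG d N => (√(u z) - √(u' (Am τ z))) ^ 2) _
  have e3 : ∑ z : GG d N, (√(u' (Am τ z + vs w)) - √(u' (Am τ z))) ^ 2 = he u' (vs w) :=
    sum_Am τ (fun z => (√(u' (z + vs w)) - √(u' z)) ^ 2)
  have e4 : ∑ z : GG d N, (√(u' (Am τ z)) - √(u z)) ^ 2 =
      ∑ z, (√(u z) - √(u' (Am τ z))) ^ 2 := by
    refine Finset.sum_congr rfl fun z _ => ?_
    ring
  rw [e0, e1, e2, e3, e4] at h
  linarith

end I.G1

end KD
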